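import Pool.Agent.Lib.MP_abd978_an.PL.H65.Moll

/-! Project PLANAR, module STREAM: the stream function of a divergence free field. -/

set_option autoImplicit false

open MeasureTheory Metric Set Filter Topology ContDiff
open scoped Gradient RealInnerProductSpace ENNReal

namespace Pool.Agent.Lib.MP_abd978_an.PL.H65

/-- the one-form `⟨rot a, ·⟩` as a linear map -/
noncomputable def omL : E 2 →L[ℝ] (E 2 →L[ℝ] ℝ) :=
  LinearMap.toContinuousLinearMap
    { toFun := fun a => InnerProductSpace.toDual ℝ (E 2) (rot a)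
      map_add' := fun a b => by rw [rot_add, map_add]
      map_smul' := fun c a => by
        rw [rot_smul, map_smulₛₗ]
        rfl }

lemma omL_apply (a v : E 2) : omL a v = ⟪rot a, v⟫ := rfl

lemma omL_symm (a : E 2) : (InnerProductSpace.toDual ℝ (E 2)).symm (omL a) = rot a := by
  have : omL a = InnerProductSpace.toDual ℝ (E 2) (rot a) := rfl
  rw [this, LinearIsometryEquiv.symm_apply_apply]

/-- the antisymmetric part -/
lemma antisymm_aux (g a u v : E 2) : ⟪g, u⟫ * omL a v - ⟪g, v⟫ * omL a u =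
    (u 0 * v 1 - u 1 * v 0) * ⟪g, a⟫ := by
  rw [omL_apply, omL_apply, inner_eq, inner_eq, inner_eq, inner_eq, inner_eq, rot_zero_apply,
    rot_one_apply]
  ring

lemma fderiv_eq_inner {f : E 2 → ℝ} (x u : E 2) : fderiv ℝ f x u = ⟪∇ f x, u⟫ := by
  rw [gradient, InnerProductSpace.toDual_symm_apply]

variable {z : E 2} {r : ℝ} {a : E 2 → E 2}

/-- the test function -/
lemma test_shift (φ : ContDiffBump (0 : E 2)) {x : E 2} (hx : dist x z + φ.rOut < r) :
    Test (ball z r) fun y => φ.normed volume (x - y) := by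
  have hts : tsupport (fun y => φ.normed volume (x - y)) ⊆ closedBall x φ.rOut := by
    refine closure_minimal (fun y hy => ?_) isClosed_closedBall
    have h1 : x - y ∈ Function.support (φ.normed volume) := hy
    rw [φ.support_normed_eq, mem_ball, dist_zero_right] at h1
    rw [mem_closedBall, dist_comm, dist_eq_norm]
    exact h1.le
  refine ⟨?_, ?_, ?_⟩
  · exact (φ.contDiff_normed (n := (⊤ : ℕ∞))).comp (contDiff_const.sub contDiff_id)
  · exact (isCompact_closedBall x φ.rOut).of_isClosed_subset (isClosed_tsupport _) hts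
  · refine hts.trans fun y hy => ?_
    rw [mem_closedBall] at hy
    rw [mem_ball]
    have := dist_triangle y x z
    linarith

lemma grad_shift (φ : ContDiffBump (0 : E 2)) (x y : E 2) :
    ∇ (fun y => φ.normed volume (x - y)) y = -∇ (φ.normed volume) (x - y) := by
  have h1 : HasFDerivAt (φ.normed volume) (fderiv ℝ (φ.normed volume) (x - y)) (x - y) :=
    ((φ.contDiff_normed (n := 1)).differentiable (by norm_num)).differentiableAt.hasFDerivAt
  have h2 : HasFDerivAt (fun y : E 2 => x - y) (-ContinuousLinearMap.id ℝ (E 2)) y :=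
    (hasFDerivAt_id y).const_sub x
  have h3 := h1.comp y h2
  have h4 : fderiv ℝ (fun y => φ.normed volume (x - y)) y =
      -(fderiv ℝ (φ.normed volume) (x - y)) := by
    have h5 : (fun y => φ.normed volume (x - y)) = φ.normed volume ∘ fun y => x - y := rfl
    rw [h5, h3.fderiv]
    ext w
    simp
  rw [grad_eq, grad_eq, h4, map_neg]

/-- the mollified field is divergence free -/
lemma div_zero (ha : ∀ φ, Test (ball z r) φ → ∫ x, ⟪a x, ∇ φ x⟫ = 0)
    (φ : ContDiffBump (0 : E 2)) {x : E 2} (hx : dist x z + φ.rOut < r) :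
    ∫ t, ⟪∇ (φ.normed volume) t, (ball z r).indicator a (x - t)⟫ = 0 := by
  have h1 : ∫ t, ⟪∇ (φ.normed volume) t, (ball z r).indicator a (x - t)⟫ =
      ∫ y, ⟪∇ (φ.normed volume) (x - y), (ball z r).indicator a y⟫ := by
    rw [← integral_sub_left_eq_self
      (fun y => ⟪∇ (φ.normed volume) (x - y), (ball z r).indicator a y⟫) volume x]
    refine integral_congr_ae (Eventually.of_forall fun t => ?_)
    simp only [sub_sub_cancel]
  have hT := test_shift φ hx
  have h2 := ha _ hT
  rw [h1, ← neg_eq_zero, ← integral_neg, ← h2]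
  refine integral_congr_ae (Eventually.of_forall fun y => ?_)
  show -⟪∇ (φ.normed volume) (x - y), (ball z r).indicator a y⟫ =
    ⟪a y, ∇ (fun y => φ.normed volume (x - y)) y⟫
  rw [grad_shift]
  by_cases hy : y ∈ ball z r
  · rw [indicator_of_mem hy, inner_neg_right, real_inner_comm]
  · have h3 : ∇ (φ.normed volume) (x - y) = 0 := by
      have h4 : y ∉ tsupport fun y => φ.normed volume (x - y) := fun h => hy (hT.2.2 h)
      have h5 : ∇ (fun y => φ.normed volume (x - y)) y = 0 := by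
        rw [grad_eq]
        have h6 : fderiv ℝ (fun y => φ.normed volume (x - y)) y = 0 := by
          have := notMem_tsupport_iff_eventuallyEq.1 h4
          rw [this.fderiv_eq]
          simp
        rw [h6, map_zero]
      rw [grad_shift, neg_eq_zero] at h5
      exact h5
    rw [h3]
    simp

/-- the mollified one-form -/
noncomputable def om (z : E 2) (r : ℝ) (a : E 2 → E 2) (φ : ContDiffBump (0 : E 2)) :
    E 2 → (E 2 →L[ℝ] ℝ) :=
  moll φ fun y => omL ((ball z r).indicator a y)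

lemma int_om (ha : IntegrableOn a (ball z r)) :
    Integrable fun y => omL ((ball z r).indicator a y) :=
  omL.integrable_comp (ha.integrable_indicator measurableSet_ball)

lemma om_closed (hai : IntegrableOn a (ball z r))
    (ha : ∀ φ, Test (ball z r) φ → ∫ x, ⟪a x, ∇ φ x⟫ = 0)
    (φ : ContDiffBump (0 : E 2)) {x : E 2} (hx : dist x z + φ.rOut < r) (u v : E 2) :
    fderiv ℝ (om z r a φ) x u v = fderiv ℝ (om z r a φ) x v u := by
  have hli := (int_om hai).locallyIntegrable
  have key : ∀ u v, Integrable (fun t => ⟪∇ (φ.normed volume) t, u⟫ *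
      omL ((ball z r).indicator a (x - t)) v) ∧ fderiv ℝ (om z r a φ) x u v =
      ∫ t, ⟪∇ (φ.normed volume) t, u⟫ * omL ((ball z r).indicator a (x - t)) v := by
    intro u v
    obtain ⟨h1, h2⟩ := moll_fderiv_apply φ hli x u
    have h3 := h1.apply_continuousLinearMap v
    have h4 : fderiv ℝ (om z r a φ) x u v = (∫ t, fderiv ℝ (φ.normed volume) t u •
        omL ((ball z r).indicator a (x - t))) v := by
      rw [← h2]; rfl
    rw [ContinuousLinearMap.integral_apply h1] at h4
    simp only [smul_apply, smul_eq_mul, fderiv_eq_inner] at h3 h4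
    exact ⟨h3, h4⟩
  obtain ⟨i1, e1⟩ := key u v
  obtain ⟨i2, e2⟩ := key v u
  rw [e1, e2, ← sub_eq_zero, ← integral_sub i1 i2]
  simp_rw [antisymm_aux]
  rw [integral_const_mul, div_zero ha φ hx, mul_zero]

/-- the primitives -/
lemma exists_prim (hai : IntegrableOn a (ball z r))
    (ha : ∀ φ, Test (ball z r) φ → ∫ x, ⟪a x, ∇ φ x⟫ = 0)
    (φ : ContDiffBump (0 : E 2)) {s : ℝ} (hs : s + φ.rOut ≤ r) :
    ∃ f : E 2 → ℝ, ContDiffOn ℝ ∞ f (ball z s) ∧
      ∀ x ∈ ball z s, ∇ f x = (InnerProductSpace.toDual ℝ (E 2)).symm (om z r a φ x) := by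
  have hsm : ContDiff ℝ ∞ (om z r a φ) := moll_contDiff φ (int_om hai).locallyIntegrable
  have hd : DifferentiableOn ℝ (om z r a φ) (ball z s) :=
    (hsm.differentiable (by simp)).differentiableOn
  obtain ⟨f, hf⟩ := (convex_ball z s).exists_forall_hasFDerivAt_of_fderiv_symmetric isOpen_ball
    hd (fun x hx u v => om_closed hai ha φ (by rw [mem_ball] at hx; linarith) u v)
  refine ⟨f, ?_, fun x hx => ?_⟩
  · rw [contDiffOn_infty_iff_fderiv_of_isOpen isOpen_ball]
    refine ⟨fun x hx => (hf x hx).differentiableAt.differentiableWithinAt, ?_⟩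
    exact hsm.contDiffOn.congr fun x hx => (hf x hx).fderiv
  · rw [grad_of_hasFDerivAt (hf x hx)]

/-- Poincaré inequality in `L¹` for functions with mean value zero -/
lemma mean_zero {z : E 2} {r : ℝ} (hr : 0 < r) {ψ : E 2 → ℝ} (hψ : ContDiffOn ℝ ∞ ψ (ball z r))
    (hi : IntegrableOn ψ (ball z r)) (h0 : ∫ x in ball z r, ψ x = 0) :
    ∫⁻ x in ball z r, ‖ψ x‖ₑ ≤ ENNReal.ofReal (2 * r) * 2 ^ 2 * ∫⁻ x in ball z r, ‖∇ ψ x‖ₑ := by
  have hvol : volume (ball z r) ≠ 0 := (measure_ball_pos volume z hr).ne'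
  have hvt : volume (ball z r) ≠ ⊤ := measure_ball_lt_top.ne
  have h1 := H19.smooth_le hψ
  have h2 : ∀ x, volume (ball z r) * ‖ψ x‖ₑ ≤ ∫⁻ y in ball z r, ‖ψ x - ψ y‖ₑ := by
    intro x
    have h3 : ∫ y in ball z r, (ψ x - ψ y) = volume.real (ball z r) * ψ x := by
      have hcst : Integrable (fun _ : E 2 => ψ x) (volume.restrict (ball z r)) :=
        integrableOn_const hvt
      rw [integral_sub hcst hi, h0, sub_zero, setIntegral_const, smul_eq_mul]
    have h4 : ‖∫ y in ball z r, (ψ x - ψ y)‖ₑ = volume (ball z r) * ‖ψ x‖ₑ := by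
      rw [h3, enorm_mul, Real.enorm_of_nonneg measureReal_nonneg, Measure.real,
        ENNReal.ofReal_toReal hvt]
    rw [← h4]
    exact enorm_integral_le_lintegral_enorm _
  have h5 : volume (ball z r) * ∫⁻ x in ball z r, ‖ψ x‖ₑ ≤ volume (ball z r) *
      (ENNReal.ofReal (2 * r) * 2 ^ 2 * ∫⁻ x in ball z r, ‖∇ ψ x‖ₑ) := by
    rw [← lintegral_const_mul' _ _ hvt]
    refine (lintegral_mono fun x => h2 x).trans (h1.trans (le_of_eq ?_))
    ring
  exact (ENNReal.mul_le_mul_iff_right hvol hvt).1 h5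

/-- the approximations -/
lemma exists_approx {z : E 2} {r r' : ℝ} {a : E 2 → E 2} (hr' : 0 < r') (hrr : r' < r)
    (hai : IntegrableOn a (ball z r))
    (ha : ∀ φ, Test (ball z r) φ → ∫ x, ⟪a x, ∇ φ x⟫ = 0) {ε : ℝ} (hε : 0 < ε) :
    ∃ ψ : E 2 → ℝ, ContDiffOn ℝ ∞ ψ (ball z r') ∧ IntegrableOn ψ (ball z r') ∧
      ∫ x in ball z r', ψ x = 0 ∧
      ∫⁻ x in ball z r', ‖∇ ψ x - rot (a x)‖ₑ ≤
        ENNReal.ofReal ε + (ENNReal.ofReal ε * volume (ball z r') + ENNReal.ofReal ε) := by
  obtain ⟨φ, hφ1, hφ2⟩ := exists_moll (int_om hai) (ball z r') hε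
    (δ := (r - r') / 2) (by linarith)
  set s : ℝ := (r + r') / 2 with hs
  obtain ⟨f, hf1, hf2⟩ := exists_prim hai ha φ (s := s) (by rw [hs]; linarith)
  have hsub : closedBall z r' ⊆ ball z s := closedBall_subset_ball (by rw [hs]; linarith)
  have hsub' : ball z r' ⊆ ball z s := ball_subset_closedBall.trans hsub
  have hfi : IntegrableOn f (ball z r') :=
    ((hf1.continuousOn.mono hsub).integrableOn_compact (isCompact_closedBall z r')).mono_set
      ball_subset_closedBall
  have hvt : volume (ball z r') ≠ ⊤ := measure_ball_lt_top.ne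
  have hvr : 0 < volume.real (ball z r') :=
    ENNReal.toReal_pos (measure_ball_pos volume z hr').ne' hvt
  set c : ℝ := (∫ x in ball z r', f x) / volume.real (ball z r') with hc
  have hcst : Integrable (fun _ : E 2 => c) (volume.restrict (ball z r')) :=
    integrableOn_const hvt
  refine ⟨fun x => f x - c, (hf1.mono hsub').sub contDiffOn_const, hfi.sub hcst, ?_, ?_⟩
  · rw [integral_sub hfi hcst, setIntegral_const, smul_eq_mul, hc]
    field_simp
    ring
  · refine le_trans (le_of_eq ?_) hφ2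
    refine setLIntegral_congr_fun measurableSet_ball fun x hx => ?_
    have h1 : ∇ (fun x => f x - c) x = ∇ f x := by
      rw [grad_eq, grad_eq, fderiv_sub_const]
    have h2 : rot (a x) = (InnerProductSpace.toDual ℝ (E 2)).symm
        (omL ((ball z r).indicator a x)) := by
      rw [omL_symm, indicator_of_mem (ball_subset_ball hrr.le hx)]
    show ‖∇ (fun x => f x - c) x - rot (a x)‖ₑ = _
    rw [h1, hf2 x (hsub' hx), h2, ← map_sub]
    exact (InnerProductSpace.toDual ℝ (E 2)).symm.enorm_map _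

theorem stream : StreamStatement := by
  intro z r r' a hr' hrr hai ha
  set B : Set (E 2) := ball z r' with hB
  have hvt : volume B ≠ ⊤ := measure_ball_lt_top.ne
  set q : ℝ≥0∞ := ENNReal.ofReal (1 / 2) with hq
  have hq1 : q < 1 := by
    rw [hq, ← ENNReal.ofReal_one, ENNReal.ofReal_lt_ofReal_iff one_pos]; norm_num
  have hq0 : q ≠ 0 := by
    rw [hq, Ne, ENNReal.ofReal_eq_zero]; norm_num
  have hqt : q ≠ ⊤ := ENNReal.ofReal_ne_top
  have hqi : ∀ i : ℕ, ENNReal.ofReal ((1 / 2) ^ i) = q ^ i := fun i =>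
    ENNReal.ofReal_pow (by norm_num) i
  choose ψ h1 h2 h3 h4 using fun i : ℕ =>
    exists_approx hr' hrr hai ha (ε := (1 / 2) ^ i) (by positivity)
  set K0 : ℝ≥0∞ := volume B + 2 with hK0
  have hK0t : K0 ≠ ⊤ := by rw [hK0]; exact ENNReal.add_ne_top.2 ⟨hvt, by norm_num⟩
  have h5 : ∀ i, ∫⁻ x in B, ‖∇ (ψ i) x - rot (a x)‖ₑ ≤ K0 * q ^ i := by
    intro i
    refine (h4 i).trans (le_of_eq ?_)
    rw [hqi, hK0, hB]
    ring
  have hmrot : AEMeasurable (fun x => rot (a x)) (volume.restrict B) :=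
    (continuous_rot.comp_aestronglyMeasurable
      (hai.mono_set (ball_subset_ball hrr.le)).aestronglyMeasurable).aemeasurable
  have hgrad : ∀ i, AEMeasurable (fun x => ∇ (ψ i) x) (volume.restrict B) := by
    intro i
    have h6 : ContinuousOn (fderiv ℝ (ψ i)) B :=
      (h1 i).continuousOn_fderiv_of_isOpen isOpen_ball (by simp)
    exact ((InnerProductSpace.toDual ℝ (E 2)).symm.continuous.comp_continuousOn h6).aemeasurable
      measurableSet_ball
  -- the Cauchy estimate
  set C₁ : ℝ≥0∞ := ENNReal.ofReal (2 * r') * 2 ^ 2 with hC₁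
  have hC₁t : C₁ ≠ ⊤ := ENNReal.mul_ne_top ENNReal.ofReal_ne_top (by norm_num)
  have hcau : ∀ i j, ∫⁻ x in B, ‖ψ i x - ψ j x‖ₑ ≤ C₁ * (K0 * q ^ i + K0 * q ^ j) := by
    intro i j
    have hd : ContDiffOn ℝ ∞ (fun x => ψ i x - ψ j x) B := (h1 i).sub (h1 j)
    have hz : ∫ x in B, (ψ i x - ψ j x) = 0 := by
      rw [integral_sub (h2 i) (h2 j), h3, h3, sub_zero]
    refine (mean_zero hr' hd ((h2 i).sub (h2 j)) hz).trans ?_
    gcongr
    calc ∫⁻ x in B, ‖∇ (fun x => ψ i x - ψ j x) x‖ₑ
        ≤ ∫⁻ x in B, (‖∇ (ψ i) x - rot (a x)‖ₑ + ‖∇ (ψ j) x - rot (a x)‖ₑ) := by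
          refine setLIntegral_mono' measurableSet_ball fun x hx => ?_
          have hdi : ∀ k, DifferentiableAt ℝ (ψ k) x := fun k =>
            ((h1 k).differentiableOn (by simp)).differentiableAt (isOpen_ball.mem_nhds hx)
          rw [grad_sub (hdi i) (hdi j)]
          have e : ∇ (ψ i) x - ∇ (ψ j) x = (∇ (ψ i) x - rot (a x)) +
              -(∇ (ψ j) x - rot (a x)) := by abel
          rw [e]
          refine (enorm_add_le _ _).trans ?_
          rw [enorm_neg]
      _ = (∫⁻ x in B, ‖∇ (ψ i) x - rot (a x)‖ₑ) + ∫⁻ x in B, ‖∇ (ψ j) x - rot (a x)‖ₑ :=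
          lintegral_add_left' ((hgrad i).sub hmrot).enorm _
      _ ≤ _ := add_le_add (h5 i) (h5 j)
  obtain ⟨v, hv1, hv2⟩ := Lp.cauchy_complete_eLpNorm (μ := volume.restrict B) (p := 1) le_rfl
    (f := ψ) (fun i => memLp_one_iff_integrable.2 (h2 i))
    (B := fun N => (C₁ * (2 * K0) + 1) * q ^ N) (by
      rw [ENNReal.tsum_mul_left, ENNReal.tsum_geometric]
      refine ENNReal.mul_ne_top (ENNReal.add_ne_top.2 ⟨ENNReal.mul_ne_top hC₁t
        (ENNReal.mul_ne_top (by norm_num) hK0t), by norm_num⟩) ?_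
      rw [ENNReal.inv_ne_top]
      exact (tsub_pos_of_lt hq1).ne') (by
      intro N i j hi hj
      rw [eLpNorm_one_eq_lintegral_enorm]
      have hle : ∀ k, N ≤ k → q ^ k ≤ q ^ N := fun k hk =>
        pow_le_pow_of_le_one zero_le hq1.le hk
      have h6 : C₁ * (K0 * q ^ i + K0 * q ^ j) ≤ C₁ * (2 * K0) * q ^ N := by
        calc C₁ * (K0 * q ^ i + K0 * q ^ j) ≤ C₁ * (K0 * q ^ N + K0 * q ^ N) := by
              gcongr C₁ * (K0 * ?_ + K0 * ?_)
              · exact hle i hi
              · exact hle j hj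
          _ = C₁ * (2 * K0) * q ^ N := by ring
      refine lt_of_le_of_lt ((hcau i j).trans h6) ?_
      rw [add_mul, one_mul]
      refine ENNReal.lt_add_right ?_ (pow_ne_zero _ hq0)
      exact ENNReal.mul_ne_top (ENNReal.mul_ne_top hC₁t (ENNReal.mul_ne_top (by norm_num) hK0t))
        (ENNReal.pow_ne_top hqt))
  refine ⟨v, ?_, ?_, ψ, h1, ?_, ?_⟩
  · rw [ENNReal.ofReal_one]; exact hv1
  · rw [ENNReal.ofReal_one, memLp_one_iff_integrable]
    exact rotL.integrable_comp (hai.mono_set (ball_subset_ball hrr.le))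
  · rw [ENNReal.ofReal_one]; exact hv2
  · simp only [ENNReal.ofReal_one, eLpNorm_one_eq_lintegral_enorm]
    refine tendsto_of_tendsto_of_tendsto_of_le_of_le tendsto_const_nhds ?_ (fun _ => zero_le) h5
    have h7 : Tendsto (fun i : ℕ => q ^ i) atTop (𝓝 0) :=
      ENNReal.tendsto_pow_atTop_nhds_zero_of_lt_one hq1
    have h8 := ENNReal.Tendsto.const_mul h7 (Or.inr hK0t)
    rwa [mul_zero] at h8

end Pool.Agent.Lib.MP_abd978_an.PL.H65
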