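import Pool.Agent.Lib.MP_abd978_an.PL.Tool
import Pool.Agent.Lib.MP_abd978_an.PL.H19.Poin

/-! Project PLANAR, module STREAM, part 1: mollification in `L¹`. -/

set_option autoImplicit false

open MeasureTheory Metric Set Filter Topology ContDiff
open scoped Gradient RealInnerProductSpace ENNReal

namespace Pool.Agent.Lib.MP_abd978_an.PL.H65

variable {n : ℕ} {F : Type*} [NormedAddCommGroup F] [NormedSpace ℝ F] [CompleteSpace F]

/-- mollification -/
noncomputable def moll (φ : ContDiffBump (0 : E n)) (h : E n → F) : E n → F :=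
  MeasureTheory.convolution (φ.normed volume) h (ContinuousLinearMap.lsmul ℝ ℝ) volume

omit [CompleteSpace F] in
lemma moll_apply (φ : ContDiffBump (0 : E n)) (h : E n → F) (x : E n) :
    moll φ h x = ∫ t, φ.normed volume t • h (x - t) := rfl

lemma lint_normed (φ : ContDiffBump (0 : E n)) : ∫⁻ t, ‖φ.normed volume t‖ₑ = 1 := by
  have h1 : Integrable (φ.normed volume) := φ.integrable_normed
  rw [← ofReal_integral_norm_eq_lintegral_enorm h1]
  have : ∫ x, ‖φ.normed volume x‖ = 1 := by
    rw [← φ.integral_normed (μ := volume)]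
    refine integral_congr_ae (Eventually.of_forall fun x => ?_)
    exact Real.norm_of_nonneg (φ.nonneg_normed x)
  rw [this, ENNReal.ofReal_one]

omit [CompleteSpace F] in
lemma moll_contract (φ : ContDiffBump (0 : E n)) {h : E n → F} (hh : Integrable h) :
    ∫⁻ x, ‖moll φ h x‖ₑ ≤ ∫⁻ x, ‖h x‖ₑ := by
  have hm0 : AEStronglyMeasurable (fun p : E n × E n => φ.normed volume p.2 • h (p.1 - p.2))
      (volume.prod volume) :=
    AEStronglyMeasurable.convolution_integrand (ContinuousLinearMap.lsmul ℝ ℝ)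
      φ.continuous_normed.aestronglyMeasurable hh.aestronglyMeasurable
  have hm : AEMeasurable (Function.uncurry fun x t : E n => ‖φ.normed volume t • h (x - t)‖ₑ)
      (volume.prod volume) := hm0.enorm
  calc ∫⁻ x, ‖moll φ h x‖ₑ ≤ ∫⁻ x, ∫⁻ t, ‖φ.normed volume t • h (x - t)‖ₑ :=
        lintegral_mono fun x => enorm_integral_le_lintegral_enorm _
    _ = ∫⁻ t, ∫⁻ x, ‖φ.normed volume t • h (x - t)‖ₑ := lintegral_lintegral_swap hm
    _ = ∫⁻ t, ‖φ.normed volume t‖ₑ * ∫⁻ x, ‖h x‖ₑ := by
        refine lintegral_congr fun t => ?_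
        simp_rw [enorm_smul]
        rw [lintegral_const_mul' _ _ enorm_ne_top,
          lintegral_sub_right_eq_self (fun x => ‖h x‖ₑ) t]
    _ = ∫⁻ x, ‖h x‖ₑ := by
        rw [lintegral_mul_const'' _ φ.continuous_normed.enorm.aemeasurable, lint_normed, one_mul]

omit [CompleteSpace F] in
lemma moll_integrable (φ : ContDiffBump (0 : E n)) {h : E n → F} (hh : LocallyIntegrable h)
    (x : E n) : Integrable fun t => φ.normed volume t • h (x - t) :=
  φ.hasCompactSupport_normed.convolutionExists_left (ContinuousLinearMap.lsmul ℝ ℝ)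
    φ.continuous_normed hh x

omit [CompleteSpace F] in
lemma moll_sub (φ : ContDiffBump (0 : E n)) {h g : E n → F} (hh : LocallyIntegrable h)
    (hg : LocallyIntegrable g) (x : E n) :
    moll φ (fun y => h y - g y) x = moll φ h x - moll φ g x := by
  rw [moll_apply, moll_apply, moll_apply, ← integral_sub (moll_integrable φ hh x)
    (moll_integrable φ hg x)]
  simp_rw [smul_sub]

lemma exists_moll {h : E n → F} (hh : Integrable h) (B : Set (E n)) {ε δ : ℝ} (hε : 0 < ε)
    (hδ : 0 < δ) : ∃ φ : ContDiffBump (0 : E n), φ.rOut ≤ δ ∧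
      ∫⁻ x in B, ‖moll φ h x - h x‖ₑ ≤
        ENNReal.ofReal ε + (ENNReal.ofReal ε * volume B + ENNReal.ofReal ε) := by
  obtain ⟨g, hgc, hg1, hg2, hg3⟩ := hh.exists_hasCompactSupport_lintegral_sub_le
    (ε := ENNReal.ofReal ε) (by simpa using hε)
  have huc : UniformContinuous g := hg2.uniformContinuous_of_tendsto_cocompact
    hgc.is_zero_at_infty
  obtain ⟨δ', hδ', hg4⟩ := Metric.uniformContinuous_iff.1 huc ε hε
  have hmin : 0 < min δ δ' := lt_min hδ hδ'
  let φ : ContDiffBump (0 : E n) := ⟨min δ δ' / 2, min δ δ', by positivity, by linarith⟩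
  refine ⟨φ, min_le_left _ _, ?_⟩
  have hpt : ∀ x, ‖moll φ g x - g x‖ₑ ≤ ENNReal.ofReal ε := by
    intro x
    have h1 := φ.dist_normed_convolution_le (μ := volume) (g := g) (x₀ := x) (ε := ε)
      hg2.aestronglyMeasurable (fun y hy => (hg4 (lt_of_lt_of_le hy (min_le_right _ _))).le)
    rw [dist_eq_norm] at h1
    rw [← ofReal_norm]
    exact ENNReal.ofReal_le_ofReal h1
  have hsub : Integrable fun y => h y - g y := hh.sub hg3
  have hpt2 : ∀ x, ‖moll φ h x - h x‖ₑ ≤ ‖moll φ (fun y => h y - g y) x‖ₑ +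
      (‖moll φ g x - g x‖ₑ + ‖h x - g x‖ₑ) := by
    intro x
    have e : moll φ h x - h x = moll φ (fun y => h y - g y) x +
        ((moll φ g x - g x) + -(h x - g x)) := by
      rw [moll_sub φ hh.locallyIntegrable hg3.locallyIntegrable]; abel
    rw [e]
    refine (enorm_add_le _ _).trans ?_
    gcongr
    refine (enorm_add_le _ _).trans ?_
    rw [enorm_neg]
  have hmh : AEMeasurable (fun x => ‖h x - g x‖ₑ) (volume.restrict B) :=
    hsub.aestronglyMeasurable.enorm.restrict
  have hmh2 : AEMeasurable (fun x => ENNReal.ofReal ε + ‖h x - g x‖ₑ) (volume.restrict B) :=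
    aemeasurable_const.add hmh
  calc ∫⁻ x in B, ‖moll φ h x - h x‖ₑ
      ≤ ∫⁻ x in B, (‖moll φ (fun y => h y - g y) x‖ₑ + (ENNReal.ofReal ε + ‖h x - g x‖ₑ)) :=
        lintegral_mono fun x => (hpt2 x).trans (by gcongr; exact hpt x)
    _ = (∫⁻ x in B, ‖moll φ (fun y => h y - g y) x‖ₑ) +
          (ENNReal.ofReal ε * volume B + ∫⁻ x in B, ‖h x - g x‖ₑ) := by
        rw [lintegral_add_right' _ hmh2, lintegral_add_right' _ hmh,
          lintegral_const, Measure.restrict_apply_univ]
    _ ≤ ENNReal.ofReal ε + (ENNReal.ofReal ε * volume B + ENNReal.ofReal ε) := by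
        gcongr
        · exact (setLIntegral_le_lintegral _ _).trans ((moll_contract φ hsub).trans hg1)
        · exact (setLIntegral_le_lintegral _ _).trans hg1

omit [CompleteSpace F] in
lemma moll_contDiff (φ : ContDiffBump (0 : E n)) {h : E n → F} (hh : LocallyIntegrable h) :
    ContDiff ℝ ∞ (moll φ h) :=
  φ.hasCompactSupport_normed.contDiff_convolution_left (ContinuousLinearMap.lsmul ℝ ℝ)
    φ.contDiff_normed hh

/-- the kernel of the derivative -/
noncomputable def ker (φ : ContDiffBump (0 : E n)) (h : E n → F) (x t : E n) : E n →L[ℝ] F :=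
  ((ContinuousLinearMap.lsmul ℝ ℝ).precompL (E n)) (fderiv ℝ (φ.normed volume) t) (h (x - t))

omit [CompleteSpace F] in
lemma ker_apply (φ : ContDiffBump (0 : E n)) (h : E n → F) (x t u : E n) :
    ker φ h x t u = fderiv ℝ (φ.normed volume) t u • h (x - t) := by
  unfold ker
  rw [ContinuousLinearMap.precompL_apply, ContinuousLinearMap.lsmul_apply]

omit [CompleteSpace F] in
lemma moll_hasFDerivAt (φ : ContDiffBump (0 : E n)) {h : E n → F} (hh : LocallyIntegrable h)
    (x : E n) : HasFDerivAt (moll φ h) (∫ t, ker φ h x t) x :=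
  φ.hasCompactSupport_normed.hasFDerivAt_convolution_left (ContinuousLinearMap.lsmul ℝ ℝ)
    φ.contDiff_normed hh x

omit [CompleteSpace F] in
lemma ker_integrable (φ : ContDiffBump (0 : E n)) {h : E n → F} (hh : LocallyIntegrable h)
    (x : E n) : Integrable fun t => ker φ h x t := by
  have h2 : Continuous (fderiv ℝ (φ.normed volume)) :=
    (φ.contDiff_normed (n := 1)).continuous_fderiv (by norm_num)
  have h3 : HasCompactSupport (fderiv ℝ (φ.normed volume)) :=
    φ.hasCompactSupport_normed.fderiv ℝ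
  have h4 : ConvolutionExistsAt (fderiv ℝ (φ.normed volume)) h x
      ((ContinuousLinearMap.lsmul ℝ ℝ).precompL (E n)) volume :=
    HasCompactSupport.convolutionExists_left _ h3 h2 hh x
  exact h4

lemma moll_fderiv_apply (φ : ContDiffBump (0 : E n)) {h : E n → F} (hh : LocallyIntegrable h)
    (x u : E n) : Integrable (fun t => fderiv ℝ (φ.normed volume) t u • h (x - t)) ∧
      fderiv ℝ (moll φ h) x u = ∫ t, fderiv ℝ (φ.normed volume) t u • h (x - t) := by
  have h1 := ker_integrable φ hh x
  have h2 := h1.apply_continuousLinearMap u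
  rw [(moll_hasFDerivAt φ hh x).fderiv, ContinuousLinearMap.integral_apply h1]
  simp_rw [ker_apply] at h2 ⊢
  exact ⟨h2, trivial⟩

end Pool.Agent.Lib.MP_abd978_an.PL.H65
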