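import Pool.Agent.Lib.MP_abd978_an.PL.Defs

/-! Project PLANAR, module TARG: construction of the target functions. -/

set_option autoImplicit false

open MeasureTheory Metric Set Filter Topology ContDiff

namespace Pool.Agent.Lib.MP_abd978_an.PL.H65

/-! ### the cut-off -/

/-- cut-off in the variable `R` -/
noncomputable def chi (δ r : ℝ) : ℝ :=
  Real.smoothTransition (r / δ - 1) * Real.smoothTransition (2 - 2 * (r * Real.exp 1))

lemma chi_nonneg (δ r : ℝ) : 0 ≤ chi δ r :=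
  mul_nonneg (Real.smoothTransition.nonneg _) (Real.smoothTransition.nonneg _)

lemma chi_le_one (δ r : ℝ) : chi δ r ≤ 1 :=
  mul_le_one₀ (Real.smoothTransition.le_one _) (Real.smoothTransition.nonneg _)
    (Real.smoothTransition.le_one _)

lemma chi_zero_left {δ r : ℝ} (hδ : 0 < δ) (h : r ≤ δ) : chi δ r = 0 := by
  have h1 : r / δ - 1 ≤ 0 := by
    rw [sub_nonpos, div_le_one hδ]; exact h
  rw [chi, Real.smoothTransition.zero_of_nonpos h1, zero_mul]

lemma exp_mul : Real.exp (-1) * Real.exp 1 = 1 := by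
  rw [← Real.exp_add]; norm_num

lemma chi_zero_right {δ r : ℝ} (h : Real.exp (-1) ≤ r) : chi δ r = 0 := by
  have h0 : Real.exp (-1) * Real.exp 1 ≤ r * Real.exp 1 :=
    mul_le_mul_of_nonneg_right h (Real.exp_pos 1).le
  rw [exp_mul] at h0
  have h1 : 2 - 2 * (r * Real.exp 1) ≤ 0 := by linarith
  rw [chi, Real.smoothTransition.zero_of_nonpos h1, mul_zero]

lemma chi_one {δ r : ℝ} (hδ : 0 < δ) (h : 2 * δ ≤ r) (h' : r ≤ Real.exp (-1) / 2) :
    chi δ r = 1 := by
  have h1 : 1 ≤ r / δ - 1 := by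
    have : 2 ≤ r / δ := by rw [le_div_iff₀ hδ]; exact h
    linarith
  have h0 : r * Real.exp 1 ≤ Real.exp (-1) / 2 * Real.exp 1 :=
    mul_le_mul_of_nonneg_right h' (Real.exp_pos 1).le
  have h2 : 1 ≤ 2 - 2 * (r * Real.exp 1) := by
    have := exp_mul
    nlinarith
  rw [chi, Real.smoothTransition.one_of_one_le h1, Real.smoothTransition.one_of_one_le h2, mul_one]

lemma contDiff_chi (δ : ℝ) : ContDiff ℝ 1 (chi δ) := by
  unfold chi
  exact (Real.smoothTransition.contDiff.comp (by fun_prop)).mul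
    (Real.smoothTransition.contDiff.comp (by fun_prop))

lemma deriv_st_bound : ∃ M : ℝ, 0 < M ∧ ∀ x, deriv Real.smoothTransition x ≤ M := by
  have hc : Continuous (deriv Real.smoothTransition) :=
    (Real.smoothTransition.contDiff (n := 1)).continuous_deriv le_rfl
  obtain ⟨M, hM⟩ := isCompact_Icc.exists_bound_of_continuousOn (s := Icc (0 : ℝ) 1)
    hc.continuousOn
  refine ⟨max M 1, lt_of_lt_of_le one_pos (le_max_right _ _), fun x => ?_⟩
  by_cases hx : x ∈ Icc (0 : ℝ) 1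
  · exact (le_abs_self _).trans ((hM x hx).trans (le_max_left _ _))
  · have hz : deriv Real.smoothTransition x = 0 := by
      rw [mem_Icc, not_and_or, not_le, not_le] at hx
      rcases hx with hx | hx
      · have : Real.smoothTransition =ᶠ[𝓝 x] fun _ => (0 : ℝ) := by
          filter_upwards [Iio_mem_nhds hx] with z hz
          exact Real.smoothTransition.zero_of_nonpos (le_of_lt hz)
        rw [this.deriv_eq]; simp
      · have : Real.smoothTransition =ᶠ[𝓝 x] fun _ => (1 : ℝ) := by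
          filter_upwards [Ioi_mem_nhds hx] with z hz
          exact Real.smoothTransition.one_of_one_le (le_of_lt hz)
        rw [this.deriv_eq]; simp
    rw [hz]
    exact le_trans zero_le_one (le_max_right _ _)

lemma deriv_chi_bound : ∃ M : ℝ, 0 < M ∧ ∀ δ, 0 < δ → ∀ r, -M ≤ deriv (chi δ) r := by
  obtain ⟨M, hM0, hM⟩ := deriv_st_bound
  refine ⟨M * (2 * Real.exp 1), by positivity, fun δ hδ r => ?_⟩
  have hd : ∀ x, HasDerivAt Real.smoothTransition (deriv Real.smoothTransition x) x := fun x =>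
    ((Real.smoothTransition.contDiff (n := 1)).differentiable (by norm_num)).differentiableAt.hasDerivAt
  have h1 : HasDerivAt (fun r => Real.smoothTransition (r / δ - 1))
      (deriv Real.smoothTransition (r / δ - 1) * (1 / δ)) r := by
    have := (hd (r / δ - 1)).comp r (((hasDerivAt_id r).div_const δ).sub_const 1)
    exact this
  have h2 : HasDerivAt (fun r => Real.smoothTransition (2 - 2 * (r * Real.exp 1)))
      (deriv Real.smoothTransition (2 - 2 * (r * Real.exp 1)) * (-(2 * (1 * Real.exp 1)))) r := by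
    have := (hd (2 - 2 * (r * Real.exp 1))).comp r
      ((((hasDerivAt_id r).mul_const (Real.exp 1)).const_mul 2).const_sub 2)
    exact this
  have h3 := (h1.mul h2).deriv
  have h4 : deriv (chi δ) r = deriv Real.smoothTransition (r / δ - 1) * (1 / δ) *
      Real.smoothTransition (2 - 2 * (r * Real.exp 1)) +
      Real.smoothTransition (r / δ - 1) *
        (deriv Real.smoothTransition (2 - 2 * (r * Real.exp 1)) * (-(2 * (1 * Real.exp 1)))) := h3
  rw [h4]
  have a1 : 0 ≤ deriv Real.smoothTransition (r / δ - 1) * (1 / δ) *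
      Real.smoothTransition (2 - 2 * (r * Real.exp 1)) :=
    mul_nonneg (mul_nonneg Real.smoothTransition.monotone.deriv_nonneg (by positivity))
      (Real.smoothTransition.nonneg _)
  have a2 : Real.smoothTransition (r / δ - 1) *
      deriv Real.smoothTransition (2 - 2 * (r * Real.exp 1)) ≤ 1 * M :=
    mul_le_mul (Real.smoothTransition.le_one _) (hM _) Real.smoothTransition.monotone.deriv_nonneg
      zero_le_one
  have he : 0 < Real.exp 1 := Real.exp_pos 1
  nlinarith [mul_le_mul_of_nonneg_right a2 (by positivity : (0 : ℝ) ≤ 2 * Real.exp 1)]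

/-! ### the functions -/

noncomputable def PP (p : ℝ) (x : ℝ) : ℝ := |x| ^ p

noncomputable def RR (p q : ℝ) (y : ℝ × ℝ) : ℝ := |y.1| ^ p + |y.2| ^ q

noncomputable def LL (p q : ℝ) (y : ℝ × ℝ) : ℝ := -Real.log (RR p q y)

noncomputable def SS (p q : ℝ) (y : ℝ × ℝ) : ℝ :=
  |y.1| ^ p * LL p q y ^ (p - 1) + |y.2| ^ q * LL p q y ^ (q - 1)

noncomputable def EE (p q : ℝ) (y : ℝ × ℝ) : ℝ :=
  (p - 1) * |y.1| ^ p * LL p q y ^ (p - 2) + (q - 1) * |y.2| ^ q * LL p q y ^ (q - 2)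

noncomputable def HH (p q δ : ℝ) (y : ℝ × ℝ) : ℝ := chi δ (RR p q y) / SS p q y

variable {p q : ℝ}

lemma contDiff_abs_rpow (hp : 1 < p) : ContDiff ℝ 1 fun x : ℝ => |x| ^ p := by
  simpa [Real.norm_eq_abs] using (contDiff_norm_rpow (E := ℝ) hp)

lemma contDiff_P (hp : 1 < p) : ContDiff ℝ 1 fun y : ℝ × ℝ => |y.1| ^ p :=
  (contDiff_abs_rpow hp).comp contDiff_fst

lemma contDiff_Q (hq : 1 < q) : ContDiff ℝ 1 fun y : ℝ × ℝ => |y.2| ^ q :=
  (contDiff_abs_rpow hq).comp contDiff_snd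

lemma contDiff_RR (hp : 1 < p) (hq : 1 < q) : ContDiff ℝ 1 (RR p q) :=
  (contDiff_P hp).add (contDiff_Q hq)

lemma RR_nonneg (y : ℝ × ℝ) : 0 ≤ RR p q y :=
  add_nonneg (Real.rpow_nonneg (abs_nonneg _) _) (Real.rpow_nonneg (abs_nonneg _) _)

lemma LL_pos {y : ℝ × ℝ} (h0 : 0 < RR p q y) (h1 : RR p q y < 1) : 0 < LL p q y := by
  unfold LL
  have := Real.log_neg h0 h1
  linarith

lemma SS_pos {y : ℝ × ℝ} (h0 : 0 < RR p q y) (h1 : RR p q y < 1) : 0 < SS p q y := by
  have hL := LL_pos h0 h1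
  have a1 : 0 < LL p q y ^ (p - 1) := Real.rpow_pos_of_pos hL _
  have a2 : 0 < LL p q y ^ (q - 1) := Real.rpow_pos_of_pos hL _
  have b1 : 0 ≤ |y.1| ^ p := Real.rpow_nonneg (abs_nonneg _) _
  have b2 : 0 ≤ |y.2| ^ q := Real.rpow_nonneg (abs_nonneg _) _
  unfold RR at h0
  unfold SS
  rcases b1.lt_or_eq with h | h
  · exact add_pos_of_pos_of_nonneg (mul_pos h a1) (mul_nonneg b2 a2.le)
  · rw [← h, zero_add] at h0
    rw [← h, zero_mul, zero_add]
    exact mul_pos h0 a2

lemma contDiffAt_LL (hp : 1 < p) (hq : 1 < q) {y : ℝ × ℝ} (h0 : 0 < RR p q y) :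
    ContDiffAt ℝ 1 (LL p q) y :=
  ((contDiff_RR hp hq).contDiffAt.log h0.ne').neg

lemma contDiffAt_SS (hp : 1 < p) (hq : 1 < q) {y : ℝ × ℝ} (h0 : 0 < RR p q y)
    (h1 : RR p q y < 1) : ContDiffAt ℝ 1 (SS p q) y := by
  have hL := contDiffAt_LL hp hq h0
  have hL0 := (LL_pos h0 h1).ne'
  exact ((contDiff_P hp).contDiffAt.mul (hL.rpow_const_of_ne hL0)).add
    ((contDiff_Q hq).contDiffAt.mul (hL.rpow_const_of_ne hL0))

lemma contDiffAt_HH (hp : 1 < p) (hq : 1 < q) (δ : ℝ) {y : ℝ × ℝ} (h0 : 0 < RR p q y)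
    (h1 : RR p q y < 1) : ContDiffAt ℝ 1 (HH p q δ) y :=
  (((contDiff_chi δ).comp (contDiff_RR hp hq)).contDiffAt).div (contDiffAt_SS hp hq h0 h1)
    (SS_pos h0 h1).ne'

/-- the weighted radial derivative of `|s|^p` -/
lemma hasDerivAt_radial (hp : 1 < p) (x : ℝ) :
    HasDerivAt (fun τ : ℝ => |x + τ * (x / p)| ^ p) (|x| ^ p) 0 := by
  have h1 : HasDerivAt (fun τ : ℝ => x + τ * (x / p)) (1 * (x / p)) 0 :=
    ((hasDerivAt_id (0 : ℝ)).mul_const (x / p)).const_add x
  have h2 := hasDerivAt_abs_rpow (x + 0 * (x / p)) hp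
  have h3 := h2.comp (0 : ℝ) h1
  have h4 : p * |x + 0 * (x / p)| ^ (p - 2) * (x + 0 * (x / p)) * (1 * (x / p)) = |x| ^ p := by
    have hp0 : p ≠ 0 := by linarith
    rw [zero_mul, add_zero, one_mul]
    rcases eq_or_ne x 0 with rfl | hx
    · rw [abs_zero, Real.zero_rpow hp0]; ring
    · have hx' : 0 < |x| := abs_pos.mpr hx
      have : |x| ^ p = |x| ^ (p - 2) * x ^ 2 := by
        rw [← sq_abs, ← Real.rpow_natCast |x| 2, ← Real.rpow_add hx']
        norm_num
      rw [this]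
      field_simp
  rw [h4] at h3
  exact h3

/-- the radial derivative of `H` -/
lemma fderiv_HH (hp : 1 < p) (hq : 1 < q) (δ : ℝ) {y : ℝ × ℝ} (h0 : 0 < RR p q y)
    (h1 : RR p q y < 1) :
    fderiv ℝ (HH p q δ) y (y.1 / p, y.2 / q) =
      deriv (chi δ) (RR p q y) * RR p q y / SS p q y - chi δ (RR p q y) / SS p q y +
        chi δ (RR p q y) * EE p q y / SS p q y ^ 2 := by
  set v : ℝ × ℝ := (y.1 / p, y.2 / q) with hv
  set g : ℝ → ℝ × ℝ := fun τ => (y.1 + τ * (y.1 / p), y.2 + τ * (y.2 / q)) with hg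
  have hg0 : g 0 = y := by simp [hg]
  have hP : HasDerivAt (fun τ => |(g τ).1| ^ p) (|y.1| ^ p) 0 := hasDerivAt_radial hp y.1
  have hQ : HasDerivAt (fun τ => |(g τ).2| ^ q) (|y.2| ^ q) 0 := hasDerivAt_radial hq y.2
  have hR : HasDerivAt (fun τ => RR p q (g τ)) (RR p q y) 0 := hP.add hQ
  have hL : HasDerivAt (fun τ => LL p q (g τ)) (-1) 0 := by
    have h2 := (hR.log (by rw [hg0]; exact h0.ne')).neg
    rw [hg0, div_self h0.ne'] at h2
    exact h2
  have hLp := LL_pos h0 h1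
  have hLne : LL p q (g 0) ≠ 0 := by rw [hg0]; exact hLp.ne'
  have hLa : HasDerivAt (fun τ => LL p q (g τ) ^ (p - 1))
      (-1 * (p - 1) * LL p q y ^ (p - 1 - 1)) 0 := by
    have := hL.rpow_const (p := p - 1) (Or.inl hLne)
    rwa [hg0] at this
  have hLb : HasDerivAt (fun τ => LL p q (g τ) ^ (q - 1))
      (-1 * (q - 1) * LL p q y ^ (q - 1 - 1)) 0 := by
    have := hL.rpow_const (p := q - 1) (Or.inl hLne)
    rwa [hg0] at this
  have hS : HasDerivAt (fun τ => SS p q (g τ)) (SS p q y - EE p q y) 0 := by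
    have h2 := (hP.mul hLa).add (hQ.mul hLb)
    have h3 : |y.1| ^ p * LL p q (g 0) ^ (p - 1) +
        |(g 0).1| ^ p * (-1 * (p - 1) * LL p q y ^ (p - 1 - 1)) +
        (|y.2| ^ q * LL p q (g 0) ^ (q - 1) +
        |(g 0).2| ^ q * (-1 * (q - 1) * LL p q y ^ (q - 1 - 1))) = SS p q y - EE p q y := by
      rw [hg0, show p - 1 - 1 = p - 2 by ring, show q - 1 - 1 = q - 2 by ring, SS, EE]
      ring
    rw [h3] at h2
    exact h2
  have hc : HasDerivAt (fun τ => chi δ (RR p q (g τ))) (deriv (chi δ) (RR p q y) * RR p q y) 0 := by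
    have h2 : HasDerivAt (chi δ) (deriv (chi δ) (RR p q (g 0))) (RR p q (g 0)) :=
      ((contDiff_chi δ).differentiable (by norm_num)).differentiableAt.hasDerivAt
    have h3 := h2.comp (0 : ℝ) hR
    rw [hg0] at h3
    exact h3
  have hSne : SS p q (g 0) ≠ 0 := by rw [hg0]; exact (SS_pos h0 h1).ne'
  have hH := hc.div hS hSne
  have hgd : HasDerivAt g v 0 := by
    have e1 : HasDerivAt (fun τ : ℝ => y.1 + τ * (y.1 / p)) (1 * (y.1 / p)) 0 :=
      ((hasDerivAt_id (0 : ℝ)).mul_const (y.1 / p)).const_add y.1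
    have e2 : HasDerivAt (fun τ : ℝ => y.2 + τ * (y.2 / q)) (1 * (y.2 / q)) 0 :=
      ((hasDerivAt_id (0 : ℝ)).mul_const (y.2 / q)).const_add y.2
    rw [one_mul] at e1 e2
    exact e1.prodMk e2
  have hF : HasFDerivAt (HH p q δ) (fderiv ℝ (HH p q δ) y) (g 0) := by
    rw [hg0]
    exact ((contDiffAt_HH hp hq δ h0 h1).differentiableAt (by norm_num)).hasFDerivAt
  have hF' := hF.comp_hasDerivAt (0 : ℝ) hgd
  have hu := hF'.unique hH
  rw [hu, hg0]
  have hS0 := (SS_pos h0 h1).ne'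
  field_simp
  ring

/-! ### near the origin and far away everything vanishes -/

lemma HH_zero_left {δ : ℝ} (hδ : 0 < δ) {y : ℝ × ℝ} (h : RR p q y ≤ δ) : HH p q δ y = 0 := by
  rw [HH, chi_zero_left hδ h, zero_div]

lemma HH_zero_right {δ : ℝ} {y : ℝ × ℝ} (h : Real.exp (-1) ≤ RR p q y) : HH p q δ y = 0 := by
  rw [HH, chi_zero_right h, zero_div]

lemma continuous_RR (hp : 1 < p) (hq : 1 < q) : Continuous (RR p q) :=
  (contDiff_RR hp hq).continuous

lemma exp_neg_one_lt : Real.exp (-1) < 1 := by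
  rw [Real.exp_lt_one_iff]; norm_num

/-- the trichotomy: `H` vanishes near `y` or `0 < R < 1` -/
lemma tri_cases (hp : 1 < p) (hq : 1 < q) {δ : ℝ} (hδ : 0 < δ) (y : ℝ × ℝ) :
    (∀ᶠ z in 𝓝 y, chi δ (RR p q z) = 0) ∨ (0 < RR p q y ∧ RR p q y < 1) := by
  by_cases h0 : 0 < RR p q y
  · by_cases h1 : RR p q y < 1
    · exact Or.inr ⟨h0, h1⟩
    · left
      have h2 : Real.exp (-1) < RR p q y := exp_neg_one_lt.trans_le (not_lt.mp h1)
      filter_upwards [(continuous_RR hp hq).continuousAt.eventually (lt_mem_nhds h2)] with z hz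
      exact chi_zero_right (le_of_lt hz)
  · left
    have h2 : RR p q y < δ := lt_of_le_of_lt (not_lt.mp h0) hδ
    filter_upwards [(continuous_RR hp hq).continuousAt.eventually (gt_mem_nhds h2)] with z hz
    exact chi_zero_left hδ (le_of_lt hz)

lemma contDiff_HH (hp : 1 < p) (hq : 1 < q) {δ : ℝ} (hδ : 0 < δ) : ContDiff ℝ 1 (HH p q δ) := by
  rw [contDiff_iff_contDiffAt]
  intro y
  rcases tri_cases hp hq hδ y with h | ⟨h0, h1⟩
  · have : HH p q δ =ᶠ[𝓝 y] fun _ => (0 : ℝ) := by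
      filter_upwards [h] with z hz
      rw [HH, hz, zero_div]
    exact contDiffAt_const.congr_of_eventuallyEq this
  · exact contDiffAt_HH hp hq δ h0 h1

/-- the function `b` -/
noncomputable def bb (p q δ : ℝ) (y : ℝ × ℝ) : ℝ := y.1 / p * HH p q δ y

/-- the function `c` -/
noncomputable def cc (p q δ : ℝ) (y : ℝ × ℝ) : ℝ := y.2 / q * HH p q δ y

/-- the function `K` -/
noncomputable def KK (p q m δ : ℝ) (y : ℝ × ℝ) : ℝ := m * (HH p q δ y / LL p q y)

lemma contDiff_bb (hp : 1 < p) (hq : 1 < q) {δ : ℝ} (hδ : 0 < δ) : ContDiff ℝ 1 (bb p q δ) :=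
  (contDiff_fst.div_const p).mul (contDiff_HH hp hq hδ)

lemma contDiff_cc (hp : 1 < p) (hq : 1 < q) {δ : ℝ} (hδ : 0 < δ) : ContDiff ℝ 1 (cc p q δ) :=
  (contDiff_snd.div_const q).mul (contDiff_HH hp hq hδ)

lemma continuous_KK (hp : 1 < p) (hq : 1 < q) (m : ℝ) {δ : ℝ} (hδ : 0 < δ) :
    Continuous (KK p q m δ) := by
  rw [continuous_iff_continuousAt]
  intro y
  rcases tri_cases hp hq hδ y with h | ⟨h0, h1⟩
  · have : KK p q m δ =ᶠ[𝓝 y] fun _ => (0 : ℝ) := by
      filter_upwards [h] with z hz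
      rw [KK, HH, hz, zero_div, zero_div, mul_zero]
    exact continuousAt_const.congr this.symm
  · exact continuousAt_const.mul ((contDiffAt_HH hp hq δ h0 h1).continuousAt.div
      (contDiffAt_LL hp hq h0).continuousAt (LL_pos h0 h1).ne')

/-- the supports -/
lemma HH_zero_off (hp : 1 < p) (hq : 1 < q) (δ : ℝ) {y : ℝ × ℝ}
    (hy : y ∉ closedBall (0 : ℝ × ℝ) 1) : HH p q δ y = 0 := by
  apply HH_zero_right
  rw [mem_closedBall, dist_zero_right, not_le, Prod.norm_def, lt_max_iff, Real.norm_eq_abs,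
    Real.norm_eq_abs] at hy
  have h1 : 1 ≤ RR p q y := by
    rcases hy with h | h
    · have : 1 ≤ |y.1| ^ p := Real.one_le_rpow h.le (by linarith)
      have h2 : 0 ≤ |y.2| ^ q := Real.rpow_nonneg (abs_nonneg _) _
      unfold RR; linarith
    · have : 1 ≤ |y.2| ^ q := Real.one_le_rpow h.le (by linarith)
      have h2 : 0 ≤ |y.1| ^ p := Real.rpow_nonneg (abs_nonneg _) _
      unfold RR; linarith
  exact exp_neg_one_lt.le.trans h1

lemma csb (hp : 1 < p) (hq : 1 < q) (δ : ℝ) : HasCompactSupport (bb p q δ) :=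
  HasCompactSupport.intro (isCompact_closedBall (0 : ℝ × ℝ) 1) fun y hy => by
    rw [bb, HH_zero_off hp hq δ hy, mul_zero]

lemma csc (hp : 1 < p) (hq : 1 < q) (δ : ℝ) : HasCompactSupport (cc p q δ) :=
  HasCompactSupport.intro (isCompact_closedBall (0 : ℝ × ℝ) 1) fun y hy => by
    rw [cc, HH_zero_off hp hq δ hy, mul_zero]

lemma csK (hp : 1 < p) (hq : 1 < q) (m δ : ℝ) : HasCompactSupport (KK p q m δ) :=
  HasCompactSupport.intro (isCompact_closedBall (0 : ℝ × ℝ) 1) fun y hy => by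
    rw [KK, HH_zero_off hp hq δ hy, zero_div, mul_zero]

lemma LL_ge_one {y : ℝ × ℝ} (h0 : 0 < RR p q y) (h1 : RR p q y ≤ Real.exp (-1)) :
    1 ≤ LL p q y := by
  unfold LL
  have := Real.log_le_log h0 h1
  rw [Real.log_exp] at this
  linarith

/-- where `χ ≠ 0` we have `0 < R < e⁻¹` -/
lemma chi_ne {δ : ℝ} (hδ : 0 < δ) {y : ℝ × ℝ} (h : chi δ (RR p q y) ≠ 0) :
    0 < RR p q y ∧ RR p q y < Real.exp (-1) := by
  constructor
  · by_contra hc
    exact h (chi_zero_left hδ ((not_lt.mp hc).trans hδ.le))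
  · by_contra hc
    exact h (chi_zero_right (not_lt.mp hc))

lemma RR_le_SS {y : ℝ × ℝ} (hp : 1 < p) (hq : 1 < q) (h0 : 0 < RR p q y)
    (h1 : RR p q y ≤ Real.exp (-1)) : RR p q y ≤ SS p q y := by
  have hL := LL_ge_one h0 h1
  have a1 : 1 ≤ LL p q y ^ (p - 1) := Real.one_le_rpow hL (by linarith)
  have a2 : 1 ≤ LL p q y ^ (q - 1) := Real.one_le_rpow hL (by linarith)
  have b1 : 0 ≤ |y.1| ^ p := Real.rpow_nonneg (abs_nonneg _) _
  have b2 : 0 ≤ |y.2| ^ q := Real.rpow_nonneg (abs_nonneg _) _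
  unfold RR SS
  nlinarith [mul_le_mul_of_nonneg_left a1 b1, mul_le_mul_of_nonneg_left a2 b2]

lemma KK_nonneg {m δ : ℝ} (hm : 0 ≤ m) (hδ : 0 < δ) (y : ℝ × ℝ) : 0 ≤ KK p q m δ y := by
  by_cases h : chi δ (RR p q y) = 0
  · rw [KK, HH, h, zero_div, zero_div, mul_zero]
  · obtain ⟨h0, h1⟩ := chi_ne hδ h
    have h2 : RR p q y < 1 := h1.trans exp_neg_one_lt
    exact mul_nonneg hm (div_nonneg (div_nonneg (chi_nonneg _ _) (SS_pos h0 h2).le)
      (LL_pos h0 h2).le)

/-- `E ≥ m S / L` -/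
lemma EE_ge {m : ℝ} (hm : m ≤ p - 1) (hm' : m ≤ q - 1) {y : ℝ × ℝ} (h0 : 0 < RR p q y)
    (h1 : RR p q y < 1) : m * SS p q y ≤ EE p q y * LL p q y := by
  have hL := LL_pos h0 h1
  have b1 : 0 ≤ |y.1| ^ p := Real.rpow_nonneg (abs_nonneg _) _
  have b2 : 0 ≤ |y.2| ^ q := Real.rpow_nonneg (abs_nonneg _) _
  have e1 : LL p q y ^ (p - 1) = LL p q y ^ (p - 2) * LL p q y := by
    rw [← Real.rpow_add_one hL.ne']; ring_nf
  have e2 : LL p q y ^ (q - 1) = LL p q y ^ (q - 2) * LL p q y := by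
    rw [← Real.rpow_add_one hL.ne']; ring_nf
  have c1 : 0 < LL p q y ^ (p - 1) := Real.rpow_pos_of_pos hL _
  have c2 : 0 < LL p q y ^ (q - 1) := Real.rpow_pos_of_pos hL _
  have h2 : EE p q y * LL p q y = (p - 1) * (|y.1| ^ p * LL p q y ^ (p - 1)) +
      (q - 1) * (|y.2| ^ q * LL p q y ^ (q - 1)) := by
    rw [EE, e1, e2]; ring
  rw [h2, SS]
  have d1 := mul_le_mul_of_nonneg_right hm (mul_nonneg b1 c1.le)
  have d2 := mul_le_mul_of_nonneg_right hm' (mul_nonneg b2 c2.le)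
  linarith

lemma fderiv_bb_cc (hp : 1 < p) (hq : 1 < q) (hpq : 1 / p + 1 / q = 1) {δ : ℝ} {y : ℝ × ℝ}
    (h0 : 0 < RR p q y) (h1 : RR p q y < 1) :
    fderiv ℝ (bb p q δ) y (1, 0) + fderiv ℝ (cc p q δ) y (0, 1) =
      deriv (chi δ) (RR p q y) * RR p q y / SS p q y +
        chi δ (RR p q y) * EE p q y / SS p q y ^ 2 := by
  have hF : HasFDerivAt (HH p q δ) (fderiv ℝ (HH p q δ) y) y :=
    ((contDiffAt_HH hp hq δ h0 h1).differentiableAt (by norm_num)).hasFDerivAt
  have e1 : HasFDerivAt (fun z : ℝ × ℝ => z.1 / p) (p⁻¹ • ContinuousLinearMap.fst ℝ ℝ ℝ) y := by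
    have := (ContinuousLinearMap.hasFDerivAt (ContinuousLinearMap.fst ℝ ℝ ℝ) (x := y)).const_smul p⁻¹
    have h2 : (fun z : ℝ × ℝ => z.1 / p) = fun z => p⁻¹ • (ContinuousLinearMap.fst ℝ ℝ ℝ) z := by
      funext z; simp [div_eq_inv_mul]
    rw [h2]; exact this
  have e2 : HasFDerivAt (fun z : ℝ × ℝ => z.2 / q) (q⁻¹ • ContinuousLinearMap.snd ℝ ℝ ℝ) y := by
    have := (ContinuousLinearMap.hasFDerivAt (ContinuousLinearMap.snd ℝ ℝ ℝ) (x := y)).const_smul q⁻¹
    have h2 : (fun z : ℝ × ℝ => z.2 / q) = fun z => q⁻¹ • (ContinuousLinearMap.snd ℝ ℝ ℝ) z := by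
      funext z; simp [div_eq_inv_mul]
    rw [h2]; exact this
  have hb := (e1.mul hF).fderiv
  have hc := (e2.mul hF).fderiv
  have hb' : fderiv ℝ (bb p q δ) y = (y.1 / p) • fderiv ℝ (HH p q δ) y +
      HH p q δ y • (p⁻¹ • ContinuousLinearMap.fst ℝ ℝ ℝ) := hb
  have hc' : fderiv ℝ (cc p q δ) y = (y.2 / q) • fderiv ℝ (HH p q δ) y +
      HH p q δ y • (q⁻¹ • ContinuousLinearMap.snd ℝ ℝ ℝ) := hc
  rw [hb', hc']
  simp only [ContinuousLinearMap.add_apply, ContinuousLinearMap.smul_apply,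
    ContinuousLinearMap.coe_fst', ContinuousLinearMap.coe_snd', smul_eq_mul, mul_one]
  have hlin : y.1 / p * fderiv ℝ (HH p q δ) y (1, 0) + y.2 / q * fderiv ℝ (HH p q δ) y (0, 1) =
      fderiv ℝ (HH p q δ) y (y.1 / p, y.2 / q) := by
    have h2 : ((y.1 / p, y.2 / q) : ℝ × ℝ) = (y.1 / p) • ((1 : ℝ), (0 : ℝ)) +
        (y.2 / q) • ((0 : ℝ), (1 : ℝ)) := by
      ext <;> simp
    rw [h2, map_add, map_smul, map_smul, smul_eq_mul, smul_eq_mul]
  have hsum : y.1 / p * fderiv ℝ (HH p q δ) y (1, 0) + HH p q δ y * p⁻¹ +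
      (y.2 / q * fderiv ℝ (HH p q δ) y (0, 1) + HH p q δ y * q⁻¹) =
      fderiv ℝ (HH p q δ) y (y.1 / p, y.2 / q) + HH p q δ y * (1 / p + 1 / q) := by
    rw [← hlin]; ring
  rw [hsum, hpq, fderiv_HH hp hq δ h0 h1, HH]
  ring

/-- the bound for `b` (and, with the roles exchanged, for `c`) -/
lemma bound_aux (hp : 1 < p) (hq : 1 < q) (hpq : p * (q - 1) = q) (hpq' : (p - 1) * (q - 1) = 1)
    {s L S χ : ℝ} (hs : 0 ≤ s) (hL : 0 < L) (hS : 0 < S) (h : s ^ p * L ^ (p - 1) ≤ S)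
    (hχ : 0 ≤ χ) (hχ' : χ ≤ 1) : (s / p * (χ / S)) ^ q ≤ χ / S / L := by
  have hp0 : 0 < p := by linarith
  have hq0 : 0 < q := by linarith
  have h1 : s ^ q * L ≤ S ^ (q - 1) := by
    have h2 : (s ^ p * L ^ (p - 1)) ^ (q - 1) ≤ S ^ (q - 1) :=
      Real.rpow_le_rpow (mul_nonneg (Real.rpow_nonneg hs _) (Real.rpow_nonneg hL.le _)) h
        (by linarith)
    rw [Real.mul_rpow (Real.rpow_nonneg hs _) (Real.rpow_nonneg hL.le _), ← Real.rpow_mul hs,
      ← Real.rpow_mul hL.le, hpq, hpq', Real.rpow_one] at h2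
    exact h2
  have h3 : (s / p) ^ q ≤ s ^ q := by
    apply Real.rpow_le_rpow (by positivity) _ hq0.le
    rw [div_le_iff₀ hp0]
    nlinarith
  have h4 : χ ^ q ≤ χ := by
    rcases hχ.eq_or_lt with h | h
    · rw [← h, Real.zero_rpow hq0.ne']
    · have := Real.rpow_le_rpow_of_exponent_ge h hχ' hq.le
      rwa [Real.rpow_one] at this
  have h5 : S ^ q = S ^ (q - 1) * S := by
    rw [← Real.rpow_add_one hS.ne']; ring_nf
  have hSq : 0 < S ^ (q - 1) := Real.rpow_pos_of_pos hS _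
  rw [Real.mul_rpow (by positivity) (by positivity), Real.div_rpow hχ hS.le, h5, div_div,
    mul_div_assoc', div_le_div_iff₀ (by positivity) (by positivity)]
  have h6 : (s / p) ^ q * L ≤ S ^ (q - 1) := (mul_le_mul_of_nonneg_right h3 hL.le).trans h1
  have h7 : 0 ≤ (s / p) ^ q := Real.rpow_nonneg (by positivity) _
  calc (s / p) ^ q * χ ^ q * (S * L) ≤ (s / p) ^ q * χ * (S * L) := by
        gcongr
    _ = ((s / p) ^ q * L) * (χ * S) := by ring
    _ ≤ S ^ (q - 1) * (χ * S) := by gcongr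
    _ = χ * (S ^ (q - 1) * S) := by ring

theorem tri_main (hp : 1 < p) (hq : 1 < q) (hpq : 1 / p + 1 / q = 1) (hq' : q = p / (p - 1))
    {M m C₁ : ℝ} (hM : 0 < M) (hMd : ∀ δ, 0 < δ → ∀ r, -M ≤ deriv (chi δ) r) (hm : 0 < m)
    (hmp : m ≤ p - 1) (hmq : m ≤ q - 1) (hC : M ≤ C₁) (hC' : 1 ≤ C₁ * m) {δ : ℝ} (hδ : 0 < δ) :
    Tri p C₁ (bb p q δ) (cc p q δ) (KK p q m δ) := by
  have hp0 : 0 < p := by linarith
  have hq0 : 0 < q := by linarith
  have hmul : p + q = p * q := by
    field_simp at hpq; linarith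
  have i1 : p * (q - 1) = q := by linarith
  have i2 : (p - 1) * (q - 1) = 1 := by linarith
  have i3 : q * (p - 1) = p := by linarith
  have i4 : (q - 1) * (p - 1) = 1 := by linarith
  have hC0 : 0 ≤ C₁ := hM.le.trans hC
  refine ⟨contDiff_bb hp hq hδ, csb hp hq δ, contDiff_cc hp hq hδ, csc hp hq δ,
    continuous_KK hp hq m hδ, csK hp hq m δ, KK_nonneg hm.le hδ, ?_, ?_, ?_⟩
  · intro y
    rcases tri_cases hp hq hδ y with h | ⟨h0, h1⟩
    · have e1 : bb p q δ =ᶠ[𝓝 y] fun _ => (0 : ℝ) := by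
        filter_upwards [h] with z hz
        rw [bb, HH, hz, zero_div, mul_zero]
      have e2 : cc p q δ =ᶠ[𝓝 y] fun _ => (0 : ℝ) := by
        filter_upwards [h] with z hz
        rw [cc, HH, hz, zero_div, mul_zero]
      have e3 : KK p q m δ y = 0 := by
        rw [KK, HH, h.self_of_nhds, zero_div, zero_div, mul_zero]
      rw [e1.fderiv_eq, e2.fderiv_eq, e3]
      simp only [fderiv_fun_const, Pi.zero_apply, ContinuousLinearMap.zero_apply]
      linarith
    · rw [fderiv_bb_cc hp hq hpq h0 h1]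
      have hS := SS_pos h0 h1
      have hL := LL_pos h0 h1
      have k1 : KK p q m δ y ≤ chi δ (RR p q y) * EE p q y / SS p q y ^ 2 := by
        rw [KK, HH, div_div, mul_div_assoc', div_le_div_iff₀ (by positivity) (by positivity)]
        have h2 := mul_le_mul_of_nonneg_left (EE_ge hmp hmq h0 h1)
          (mul_nonneg (chi_nonneg δ (RR p q y)) hS.le)
        nlinarith
      have k2 : -C₁ ≤ deriv (chi δ) (RR p q y) * RR p q y / SS p q y := by
        by_cases h2 : RR p q y ≤ Real.exp (-1)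
        · have h3 := RR_le_SS hp hq h0 h2
          rw [le_div_iff₀ hS]
          have h4 := hMd δ hδ (RR p q y)
          nlinarith
        · have h3 : deriv (chi δ) (RR p q y) = 0 := by
            have : chi δ =ᶠ[𝓝 (RR p q y)] fun _ => (0 : ℝ) := by
              filter_upwards [Ioi_mem_nhds (not_le.mp h2)] with z hz
              exact chi_zero_right (le_of_lt hz)
            rw [this.deriv_eq]; simp
          rw [h3, zero_mul, zero_div]
          linarith
      linarith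
  · intro y
    by_cases h : chi δ (RR p q y) = 0
    · have e1 : bb p q δ y = 0 := by rw [bb, HH, h, zero_div, mul_zero]
      rw [e1, abs_zero, Real.zero_rpow (by rw [← hq']; exact hq0.ne')]
      exact mul_nonneg hC0 (KK_nonneg hm.le hδ y)
    · obtain ⟨h0, h1⟩ := chi_ne hδ h
      have h2 : RR p q y < 1 := h1.trans exp_neg_one_lt
      have hS := SS_pos h0 h2
      have hL := LL_pos h0 h2
      have h3 : |y.1| ^ p * LL p q y ^ (p - 1) ≤ SS p q y := by
        unfold SS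
        have : 0 ≤ |y.2| ^ q * LL p q y ^ (q - 1) := by positivity
        linarith
      have h4 := bound_aux hp hq i1 i2 (abs_nonneg y.1) hL hS h3 (chi_nonneg δ (RR p q y))
        (chi_le_one δ (RR p q y))
      have h5 : |bb p q δ y| = |y.1| / p * (chi δ (RR p q y) / SS p q y) := by
        rw [bb, HH, abs_mul, abs_div, abs_of_pos hp0,
          abs_of_nonneg (div_nonneg (chi_nonneg _ _) hS.le)]
      rw [← hq', h5]
      refine h4.trans ?_
      have h6 : 0 ≤ chi δ (RR p q y) / SS p q y / LL p q y :=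
        div_nonneg (div_nonneg (chi_nonneg _ _) hS.le) hL.le
      rw [KK, HH]
      nlinarith
  · intro y
    by_cases h : chi δ (RR p q y) = 0
    · have e1 : cc p q δ y = 0 := by rw [cc, HH, h, zero_div, mul_zero]
      rw [e1, abs_zero, Real.zero_rpow hp0.ne']
      exact mul_nonneg hC0 (KK_nonneg hm.le hδ y)
    · obtain ⟨h0, h1⟩ := chi_ne hδ h
      have h2 : RR p q y < 1 := h1.trans exp_neg_one_lt
      have hS := SS_pos h0 h2
      have hL := LL_pos h0 h2
      have h3 : |y.2| ^ q * LL p q y ^ (q - 1) ≤ SS p q y := by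
        unfold SS
        have : 0 ≤ |y.1| ^ p * LL p q y ^ (p - 1) := by positivity
        linarith
      have h4 := bound_aux hq hp i3 i4 (abs_nonneg y.2) hL hS h3 (chi_nonneg δ (RR p q y))
        (chi_le_one δ (RR p q y))
      have h5 : |cc p q δ y| = |y.2| / q * (chi δ (RR p q y) / SS p q y) := by
        rw [cc, HH, abs_mul, abs_div, abs_of_pos hq0,
          abs_of_nonneg (div_nonneg (chi_nonneg _ _) hS.le)]
      rw [h5]
      refine h4.trans ?_
      have h6 : 0 ≤ chi δ (RR p q y) / SS p q y / LL p q y :=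
        div_nonneg (div_nonneg (chi_nonneg _ _) hS.le) hL.le
      rw [KK, HH]
      nlinarith

/-- the value of `(κ e^{-q j}/j)^p` -/
lemma scale_rpow {κ a j p : ℝ} (hκ : 0 ≤ κ) (hj : 0 < j) :
    (κ * (Real.exp (-a * j) / j)) ^ p = κ ^ p * (Real.exp (-(p * a) * j) / j ^ p) := by
  rw [Real.mul_rpow hκ (by positivity), Real.div_rpow (Real.exp_pos _).le hj.le, ← Real.exp_mul]
  congr 3
  ring

/-- the estimates in a layer, abstractly -/
lemma layer_est (hp : 1 < p) (hq : 1 < q) (hmul : p + q = p * q) {m δ : ℝ} (hm : 0 < m)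
    (hδ : 0 < δ) {j s t : ℝ} (hj : 1 ≤ j)
    (hs : |s| ≤ 2 * (Real.exp (-q * j) / j)) (ht : |t| ≤ 2 * (Real.exp (-p * j) / j))
    (hst : Real.exp (-q * j) / j ≤ |s| ∨ Real.exp (-p * j) / j ≤ |t|)
    (hsmall : (2 ^ p + 2 ^ q) * Real.exp (-(p * q) * j) ≤ Real.exp (-1) / 2)
    (hδj : 2 * δ ≤ Real.exp (-(p * q) * j) / j ^ (p * q)) :
    m / ((4 * (p * q)) ^ p + (4 * (p * q)) ^ q) * Real.exp (p * q * j) ≤ KK p q m δ (s, t) := by
  have hp0 : 0 < p := by linarith
  have hq0 : 0 < q := by linarith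
  have hj0 : 0 < j := by linarith
  set X : ℝ := Real.exp (-(p * q) * j) with hX
  have hX0 : 0 < X := Real.exp_pos _
  have hpq0 : 0 < p * q := by positivity
  have ep : (Real.exp (-q * j) / j) ^ p = X / j ^ p := by
    have := scale_rpow (κ := 1) (a := q) (j := j) (p := p) zero_le_one hj0
    rw [one_mul, Real.one_rpow, one_mul] at this
    exact this
  have eq : (Real.exp (-p * j) / j) ^ q = X / j ^ q := by
    have := scale_rpow (κ := 1) (a := p) (j := j) (p := q) zero_le_one hj0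
    rw [one_mul, Real.one_rpow, one_mul] at this
    rw [this, hX, mul_comm q p]
  have jp : 1 ≤ j ^ p := Real.one_le_rpow hj hp0.le
  have jq : 1 ≤ j ^ q := Real.one_le_rpow hj hq0.le
  have jpq : 0 < j ^ (p * q) := Real.rpow_pos_of_pos hj0 _
  -- upper bounds for the powers
  have us : |s| ^ p ≤ 2 ^ p * (X / j ^ p) := by
    rw [← ep, ← Real.mul_rpow (by norm_num) (by positivity)]
    exact Real.rpow_le_rpow (abs_nonneg _) hs hp0.le
  have ut : |t| ^ q ≤ 2 ^ q * (X / j ^ q) := by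
    rw [← eq, ← Real.mul_rpow (by norm_num) (by positivity)]
    exact Real.rpow_le_rpow (abs_nonneg _) ht hq0.le
  have hsp : 0 ≤ |s| ^ p := Real.rpow_nonneg (abs_nonneg _) _
  have htq : 0 ≤ |t| ^ q := Real.rpow_nonneg (abs_nonneg _) _
  have x1 : X / j ^ p ≤ X := div_le_self hX0.le jp
  have x2 : X / j ^ q ≤ X := div_le_self hX0.le jq
  have two_p : (0 : ℝ) < 2 ^ p := Real.rpow_pos_of_pos (by norm_num) _
  have two_q : (0 : ℝ) < 2 ^ q := Real.rpow_pos_of_pos (by norm_num) _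
  have hRdef : RR p q (s, t) = |s| ^ p + |t| ^ q := rfl
  have hRle : RR p q (s, t) ≤ Real.exp (-1) / 2 := by
    refine le_trans ?_ hsmall
    rw [hRdef]
    nlinarith [mul_le_mul_of_nonneg_left x1 two_p.le, mul_le_mul_of_nonneg_left x2 two_q.le]
  have hRge : X / j ^ (p * q) ≤ RR p q (s, t) := by
    rw [hRdef]
    rcases hst with h | h
    · have h1 : X / j ^ p ≤ |s| ^ p := by
        rw [← ep]; exact Real.rpow_le_rpow (by positivity) h hp0.le
      have h2 : X / j ^ (p * q) ≤ X / j ^ p := by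
        apply div_le_div_of_nonneg_left hX0.le (by positivity)
        exact Real.rpow_le_rpow_of_exponent_le hj (by linarith)
      linarith
    · have h1 : X / j ^ q ≤ |t| ^ q := by
        rw [← eq]; exact Real.rpow_le_rpow (by positivity) h hq0.le
      have h2 : X / j ^ (p * q) ≤ X / j ^ q := by
        apply div_le_div_of_nonneg_left hX0.le (by positivity)
        exact Real.rpow_le_rpow_of_exponent_le hj (by linarith)
      linarith
  have hR0 : 0 < RR p q (s, t) := lt_of_lt_of_le (by positivity) hRge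
  have he : Real.exp (-1) / 2 < 1 := by
    have := exp_neg_one_lt
    have h0 := Real.exp_pos (-1)
    linarith
  have hR1 : RR p q (s, t) < 1 := hRle.trans_lt he
  have hS := SS_pos hR0 hR1
  have hL := LL_pos hR0 hR1
  have hχ : chi δ (RR p q (s, t)) = 1 := chi_one hδ (hδj.trans hRge) hRle
  -- `L ≤ 2 p q j`
  have hLle : LL p q (s, t) ≤ 2 * (p * q) * j := by
    have h1 : Real.log (X / j ^ (p * q)) ≤ Real.log (RR p q (s, t)) :=
      Real.log_le_log (by positivity) hRge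
    rw [Real.log_div hX0.ne' jpq.ne', Real.log_rpow hj0, hX, Real.log_exp] at h1
    have h2 : Real.log j ≤ j := (Real.log_le_sub_one_of_pos hj0).trans (by linarith)
    have h3 : p * q * Real.log j ≤ p * q * j := mul_le_mul_of_nonneg_left h2 hpq0.le
    unfold LL
    linarith
  -- `L S`
  have hLS : SS p q (s, t) * LL p q (s, t) ≤ ((4 * (p * q)) ^ p + (4 * (p * q)) ^ q) * X := by
    have f1 : LL p q (s, t) ^ (p - 1) * LL p q (s, t) = LL p q (s, t) ^ p := by
      rw [← Real.rpow_add_one hL.ne']; ring_nf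
    have f2 : LL p q (s, t) ^ (q - 1) * LL p q (s, t) = LL p q (s, t) ^ q := by
      rw [← Real.rpow_add_one hL.ne']; ring_nf
    have f3 : SS p q (s, t) * LL p q (s, t) = |s| ^ p * LL p q (s, t) ^ p +
        |t| ^ q * LL p q (s, t) ^ q := by
      rw [← f1, ← f2, SS]; ring
    have g1 : LL p q (s, t) ^ p ≤ (2 * (p * q)) ^ p * j ^ p := by
      rw [← Real.mul_rpow (by positivity) hj0.le]
      exact Real.rpow_le_rpow hL.le hLle hp0.le
    have g2 : LL p q (s, t) ^ q ≤ (2 * (p * q)) ^ q * j ^ q := by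
      rw [← Real.mul_rpow (by positivity) hj0.le]
      exact Real.rpow_le_rpow hL.le hLle hq0.le
    have i1 : |s| ^ p * LL p q (s, t) ^ p ≤ (4 * (p * q)) ^ p * X := by
      calc |s| ^ p * LL p q (s, t) ^ p ≤ (2 ^ p * (X / j ^ p)) * ((2 * (p * q)) ^ p * j ^ p) :=
            mul_le_mul us g1 (Real.rpow_nonneg hL.le _) (by positivity)
        _ = (2 ^ p * (2 * (p * q)) ^ p) * X := by
            have : j ^ p ≠ 0 := (lt_of_lt_of_le one_pos jp).ne'
            field_simp
        _ = (4 * (p * q)) ^ p * X := by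
            rw [← Real.mul_rpow (by norm_num) (by positivity)]
            congr 2
            ring
    have i2 : |t| ^ q * LL p q (s, t) ^ q ≤ (4 * (p * q)) ^ q * X := by
      calc |t| ^ q * LL p q (s, t) ^ q ≤ (2 ^ q * (X / j ^ q)) * ((2 * (p * q)) ^ q * j ^ q) :=
            mul_le_mul ut g2 (Real.rpow_nonneg hL.le _) (by positivity)
        _ = (2 ^ q * (2 * (p * q)) ^ q) * X := by
            have : j ^ q ≠ 0 := (lt_of_lt_of_le one_pos jq).ne'
            field_simp
        _ = (4 * (p * q)) ^ q * X := by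
            rw [← Real.mul_rpow (by norm_num) (by positivity)]
            congr 2
            ring
    rw [f3]
    linarith
  set A : ℝ := (4 * (p * q)) ^ p + (4 * (p * q)) ^ q with hA
  have hA0 : 0 < A := by positivity
  rw [KK, HH, hχ, div_div]
  have hXe : Real.exp (p * q * j) * X = 1 := by
    rw [hX, ← Real.exp_add]; ring_nf; exact Real.exp_zero
  have h1 : 1 / (A * X) ≤ 1 / (SS p q (s, t) * LL p q (s, t)) :=
    one_div_le_one_div_of_le (by positivity) hLS
  have h2 : m / A * Real.exp (p * q * j) = m * (1 / (A * X)) := by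
    have h3 : Real.exp (p * q * j) = 1 / X := by
      rw [eq_div_iff hX0.ne']; exact hXe
    rw [h3]
    field_simp
  rw [h2]
  exact mul_le_mul_of_nonneg_left h1 hm.le

theorem targ : TargStatement := by
  intro p hp
  obtain ⟨M, hM, hMd⟩ := deriv_chi_bound
  set q : ℝ := p / (p - 1) with hqdef
  have hp1 : 0 < p - 1 := by linarith
  have hq : 1 < q := by
    rw [hqdef, lt_div_iff₀ hp1]; linarith
  have hp0 : 0 < p := by linarith
  have hq0 : 0 < q := by linarith
  have hmul : p + q = p * q := by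
    rw [hqdef]; field_simp; ring
  have hpq : 1 / p + 1 / q = 1 := by
    field_simp
    linarith
  set m : ℝ := min (p - 1) (q - 1) with hmdef
  have hm : 0 < m := lt_min hp1 (by linarith)
  set B : ℝ := 2 ^ p + 2 ^ q with hB
  have hB0 : 0 < B := by positivity
  obtain ⟨j₀, hj₀⟩ := exists_nat_ge (2 * Real.exp 1 * B)
  refine ⟨M + 1 / m, m / ((4 * (p * q)) ^ p + (4 * (p * q)) ^ q), by positivity, by positivity,
    j₀ + 1, Nat.le_add_left 1 j₀, fun N => ?_⟩
  set δ : ℝ := Real.exp (-(p * q) * N) / (2 * ((N : ℝ) + 1) ^ (p * q)) with hδdef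
  have hN0 : (0 : ℝ) < (N : ℝ) + 1 := by positivity
  have hδ : 0 < δ := by positivity
  refine ⟨bb p q δ, cc p q δ, KK p q m δ, tri_main hp hq hpq hqdef hM hMd hm (min_le_left _ _)
    (min_le_right _ _) ?_ ?_ hδ, ?_⟩
  · have : 0 < 1 / m := by positivity
    linarith
  · have h1 : 1 / m * m = 1 := by field_simp
    nlinarith [mul_pos hM hm]
  · intro j hj hjN s t hs ht hst
    have hj1 : (1 : ℝ) ≤ (j : ℝ) := by
      have : 1 ≤ j := le_trans (Nat.le_add_left 1 j₀) hj
      exact_mod_cast this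
    have hj2 : (j₀ : ℝ) ≤ (j : ℝ) := by
      exact_mod_cast (Nat.le_succ j₀).trans hj
    have hjN' : (j : ℝ) ≤ (N : ℝ) := by exact_mod_cast hjN
    have hpq1 : 1 ≤ p * q := by nlinarith
    refine layer_est hp hq hmul hm hδ hj1 hs ht hst ?_ ?_
    · have h1 : Real.exp (-(p * q) * j) ≤ Real.exp (-(j : ℝ)) := by
        apply Real.exp_le_exp.mpr
        nlinarith
      have h2 : (j : ℝ) ≤ Real.exp j := by
        have := Real.add_one_le_exp (j : ℝ)
        linarith
      have h3 : 2 * Real.exp 1 * B ≤ Real.exp j := hj₀.trans (hj2.trans h2)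
      have h4 : B * Real.exp (-(j : ℝ)) ≤ Real.exp (-1) / 2 := by
        rw [Real.exp_neg, Real.exp_neg, ← div_eq_mul_inv, div_le_iff₀ (Real.exp_pos _)]
        have h5 : (Real.exp 1)⁻¹ / 2 * (2 * Real.exp 1 * B) = B := by
          have := (Real.exp_pos 1).ne'
          field_simp
        rw [← h5]
        exact mul_le_mul_of_nonneg_left h3 (by positivity)
      exact (mul_le_mul_of_nonneg_left h1 hB0.le).trans h4
    · have h1 : 2 * δ = Real.exp (-(p * q) * N) / ((N : ℝ) + 1) ^ (p * q) := by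
        rw [hδdef]
        have : ((N : ℝ) + 1) ^ (p * q) ≠ 0 := (Real.rpow_pos_of_pos hN0 _).ne'
        field_simp
      rw [h1]
      apply div_le_div₀ (Real.exp_pos _).le
      · apply Real.exp_le_exp.mpr
        nlinarith
      · exact Real.rpow_pos_of_pos (by linarith) _
      · exact Real.rpow_le_rpow (by linarith) (by linarith) (by linarith)

end Pool.Agent.Lib.MP_abd978_an.PL.H65
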